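import Mathlib
import Pool.Agent.H27.Ladder

set_option autoImplicit false

namespace Pool.Agent.Results.MP_8f6a5a_an.Counter

open Matrix Finset Pool.Agent.H27.Ladder
open scoped ENNReal

noncomputable def rho {n : ℕ} (M : Matrix (Fin n) (Fin n) ℝ) : ℝ≥0∞ :=
  spectralRadius ℂ (M.map (algebraMap ℝ ℂ))

lemma spec {n : ℕ} (M : Matrix (Fin n) (Fin n) ℂ) (μ : ℂ) :
    μ ∈ spectrum ℂ M ↔ (μ • (1 : Matrix (Fin n) (Fin n) ℂ) - M).det = 0 := by
  rw [spectrum.mem_iff, Matrix.isUnit_iff_isUnit_det, isUnit_iff_ne_zero, not_not,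
    Algebra.algebraMap_eq_smul_one]

lemma rhoP : rho P = 1 := by
  have hv : ∀ j : Fin 645, (0 : ℝ) < v j := fun j => by exact_mod_cast (pos j j.2).2.1
  apply le_antisymm
  · refine iSup₂_le fun μ hμ => ?_
    obtain ⟨x, hx, h⟩ := Matrix.exists_mulVec_eq_zero_iff.mpr ((spec _ _).mp hμ)
    obtain ⟨j, hj⟩ := Finite.exists_max fun j : Fin 645 => ‖x j‖ / v j
    have hle : ∀ i, ‖x i‖ ≤ ‖x j‖ / v j * v i := fun i => (div_le_iff₀ (hv i)).mp (hj i)
    have hpos : 0 < ‖x j‖ := by
      by_contra h0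
      apply hx
      funext i
      have := hle i
      rw [le_antisymm (not_lt.mp h0) (norm_nonneg _), zero_div, zero_mul] at this
      exact norm_le_zero_iff.mp this
    have h1 : μ * x j = ∑ i : Fin 645, ((e j i : ℝ) : ℂ) * x i := by
      have := congrFun h j
      rw [Matrix.sub_mulVec, Matrix.smul_mulVec, Matrix.one_mulVec] at this
      exact sub_eq_zero.mp this
    have h2 : ‖μ‖ * ‖x j‖ ≤ 1 * ‖x j‖ := by
      rw [← norm_mul, h1]
      refine (norm_sum_le _ _).trans ?_
      calc _ ≤ ∑ i : Fin 645, ‖x j‖ / v j * ((e j i : ℝ) * v i) := sum_le_sum fun i _ => by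
            have h3 : (0 : ℝ) ≤ e j i := by exact_mod_cast e_nn j i j.2 i.2
            rw [norm_mul, Complex.norm_real, Real.norm_of_nonneg h3, mul_left_comm]
            exact mul_le_mul_of_nonneg_left (hle i) h3
        _ = _ := by rw [← mul_sum, Pv _ j.2, div_mul_cancel₀ _ (hv j).ne', one_mul]
    have h3 : ‖μ‖ ≤ 1 := le_of_mul_le_mul_right h2 hpos
    exact_mod_cast h3
  · refine le_trans (by simp) (le_iSup₂_of_le (1 : ℂ) ?_ le_rfl)
    rw [spec, ← Matrix.exists_mulVec_eq_zero_iff]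
    refine ⟨fun i => v i, fun h => (hv 0).ne' ?_, ?_⟩
    · have : (v (0 : Fin 645) : ℂ) = 0 := congrFun h 0
      exact_mod_cast this
    · funext j
      rw [Matrix.sub_mulVec, one_smul, Matrix.one_mulVec]
      exact sub_eq_zero.mpr (Pv (K := ℂ) j j.2).symm

lemma big (c : Fin 645 → ℝ) (h1 : ∑ i, c i = 1) (h2 : ∑ i : Fin 645, (c i : ℂ) * C (u i) = 0) :
    1 < rho ((1 - vecMulVec c 1) * P) := by
  have hk : C (R 1 0) ≠ 0 := fun h => chk'.1 (by
    have := Complex.ext_iff.mp h
    simp only [C, Complex.zero_re, Complex.zero_im, Rat.cast_eq_zero] at this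
    exact Prod.ext this.1 this.2)
  have hy : ∑ i : Fin 645, (C (R 1 0) - s0 * C (u i)) * c i = C (R 1 0) := by
    have h3 : ∑ i, (c i : ℂ) = 1 := by exact_mod_cast h1
    simp only [sub_mul, sum_sub_distrib, mul_assoc, ← mul_sum, h3, mul_comm (C (u _)), h2]
    simp
  refine lt_of_lt_of_le ?_ (le_iSup₂_of_le s0 ?_ le_rfl)
  · have : (1 : ℝ) < ‖s0‖ := by
      rw [← sq_lt_sq₀ zero_le_one (norm_nonneg _), Complex.sq_norm, Complex.normSq_apply]
      simp [s0, th]
    exact_mod_cast this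
  · rw [spec, ← Matrix.exists_vecMul_eq_zero_iff]
    refine ⟨fun i => C (R 1 0) - s0 * C (u i), fun h => hk ?_, ?_⟩
    · rw [← hy]; exact sum_eq_zero fun i _ => by rw [congrFun h i]; simp
    · have h4 : (fun i : Fin 645 => C (R 1 0) - s0 * C (u i)) ᵥ*
          (1 - vecMulVec c 1).map (algebraMap ℝ ℂ) = fun i : Fin 645 => -s0 * C (u i) := by
        funext j
        simp only [vecMul, dotProduct, map_apply, Matrix.sub_apply, vecMulVec_apply, Pi.one_apply, mul_one,
          map_sub, mul_sub, sum_sub_distrib, Complex.coe_algebraMap, hy, Matrix.one_apply, Complex.ofReal_sub,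
          apply_ite Complex.ofReal, mul_ite, Complex.ofReal_one, Complex.ofReal_zero, mul_zero,
          sum_ite_eq', mem_univ, if_true]
        ring
      rw [Matrix.vecMul_sub, Matrix.map_mul, ← Matrix.vecMul_vecMul, h4, Matrix.vecMul_smul,
        Matrix.vecMul_one]
      funext j
      have h5 := sum_e (fun i => C (u i)) j j.2
      rw [eqn j j.2] at h5
      have h6 : ((fun i : Fin 645 => -s0 * C (u i)) ᵥ* P.map (algebraMap ℝ ℂ)) j =
          -s0 * ∑ i : Fin 645, (e j i : ℂ) * C (u i) := by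
        rw [mul_sum, vecMul, dotProduct]
        refine sum_congr (Eq.refl _) fun i _ => ?_
        simp only [map_apply, P, Complex.coe_algebraMap, e_symm i j, Complex.ofReal_ratCast]
        ring
      rw [Pi.sub_apply, h6, h5]
      simp only [Pi.smul_apply, smul_eq_mul, Pi.zero_apply]
      ring

theorem result : ∃ (n : ℕ) (P : Matrix (Fin n) (Fin n) ℝ) (c : Fin n → ℝ), P.IsSymm ∧
    (∀ r s : Fin n, (r : ℕ) + 1 < s ∨ (s : ℕ) + 1 < r → P r s = 0) ∧
    (∀ r s : Fin n, (r : ℕ) ≤ s + 1 → (s : ℕ) ≤ r + 1 → 0 < P r s) ∧ rho P = 1 ∧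
    (∀ s : Fin n, ∑ r : Fin n with r.val + 1 = s.val ∨ s.val + 1 = r.val, P r s ≤ 1) ∧
    (∀ i, 0 ≤ c i) ∧ ∑ i, c i = 1 ∧ 1 < rho ((1 - vecMulVec c 1) * P) := by
  obtain ⟨-, ha, hb, hc⟩ := chk'
  set a := cr (u 640) (u 642) with ea
  set b := cr (u 642) (u 643) with eb
  set c := cr (u 643) (u 640) with ec
  have hT : (a + b + c : ℝ) < 0 := by exact_mod_cast (by linarith : a + b + c < 0)
  have h0 : ∀ x : ℚ, x < 0 → (0 : ℝ) ≤ x / (a + b + c) := fun x hx =>
    div_nonneg_of_nonpos (by exact_mod_cast hx.le) hT.le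
  let w : Fin 645 → ℝ := fun i => (if i = 640 then (b : ℝ) / (a + b + c) else 0) +
    (if i = 642 then (c : ℝ) / (a + b + c) else 0) + if i = 643 then (a : ℝ) / (a + b + c) else 0
  have hw : ∑ i, w i = 1 := by
    simp only [w, sum_add_distrib, sum_ite_eq', mem_univ, if_true]
    rw [← add_div, ← add_div, div_eq_one_iff_eq hT.ne]; ring
  refine ⟨645, P, w, ?_, fun r s h => ?_, fun r s h1 h2 => ?_, rhoP, fun s => ?_, fun i => ?_, hw,
    big w hw ?_⟩
  · ext r s; simp [P, e_symm r s]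
  · simp only [P, e]; rw [if_neg (by omega), if_neg (by omega), if_neg (by omega)]; simp
  · have h3 := pos r r.2
    have h4 := pos s s.2
    have h5 := r.2
    have h6 := s.2
    simp only [P, Rat.cast_pos, e]
    split_ifs <;> first | omega | simp only [add_zero, zero_add]
    exacts [h4.2.2.2.2 (by omega), h4.1, h3.2.2.2.2 (by omega)]
  · have h1 := sum_e (K := ℝ) (fun i => if i + 1 = s ∨ (s : ℕ) + 1 = i then 1 else 0) s s.2
    have h2 := pos s s.2
    have h3 : (q s : ℝ) + p s ≤ 1 := by exact_mod_cast h2.2.2.2.1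
    have h4 : (0 : ℝ) ≤ q s := by exact_mod_cast h2.2.2.1
    simp only [mul_ite, mul_one, mul_zero, or_true, if_true] at h1
    simp only [sum_filter, P, e_symm _ s, h1]
    split_ifs <;> first | omega | linarith
  · refine add_nonneg (add_nonneg ?_ ?_) ?_ <;> split_ifs
    exacts [h0 b hb, le_rfl, h0 c hc, le_rfl, h0 a ha, le_rfl]
  · simp only [w, Complex.ofReal_add, add_mul, sum_add_distrib, apply_ite Complex.ofReal, ite_mul,
      Complex.ofReal_zero, zero_mul, sum_ite_eq', mem_univ, if_true]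
    rw [show ((640 : Fin 645) : ℕ) = 640 from rfl, show ((642 : Fin 645) : ℕ) = 642 from rfl,
      show ((643 : Fin 645) : ℕ) = 643 from rfl]
    have key : (b : ℂ) * C (u 640) + c * C (u 642) + a * C (u 643) = 0 := by
      rw [ea, eb, ec]
      apply Complex.ext <;> simp [C, cr] <;> ring
    push_cast
    linear_combination key / (a + b + c)

end Pool.Agent.Results.MP_8f6a5a_an.Counter
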